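import Pool.Agent.UL5.Stmts
import Pool.Agent.Helper34_UL3.FUB

/-!
# Squad UL5, row DCB: cone and double cone
-/

set_option autoImplicit false

namespace Pool.Agent.UL5.H7

open MeasureTheory Set Filter Pool.Agent.UL3 Pool.Agent.UL4
open scoped Topology Pointwise

theorem up_cont : Continuous fun q : (ℝ × ℝ) × ℝ => up q.1 q.2 := by
  unfold up
  refine (PiLp.continuous_toLp 2 _).comp (continuous_pi fun i => ?_)
  fin_cases i
  · exact continuous_fst.fst
  · exact continuous_fst.snd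
  · exact continuous_snd

theorem pr_cont : Continuous fun x : E3 => (x 0, x 1) := by fun_prop

theorem ht_cont : Continuous fun x : E3 => x 2 := by fun_prop

section

variable {C : Set (ℝ × ℝ)}

theorem zmem (h : PB C) : (0 : ℝ × ℝ) ∈ C := interior_subset h.zero_mem

theorem shrink (h : PB C) {c : ℝ × ℝ} (hc : c ∈ C) {s : ℝ} (h0 : 0 ≤ s) (h1 : s ≤ 1) :
    s • c ∈ C := by
  have := h.cvx (zmem h) hc (a := 1 - s) (b := s) (by linarith) h0 (by ring)
  rwa [smul_zero, zero_add] at this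

theorem con_sub : con C ⊆ dco C := by
  rintro x ⟨h0, h1, c, hc, hx⟩
  refine ⟨by rw [abs_of_nonneg h0]; exact h1, c, hc, ?_⟩
  rw [abs_of_nonneg h0]
  exact hx

theorem con_cpt (h : PB C) : IsCompact (con C) := by
  have h1 : con C = (fun q : (ℝ × ℝ) × ℝ => up ((1 - q.2) • q.1) q.2) '' (C ×ˢ Icc 0 1) := by
    ext x
    constructor
    · rintro ⟨h0, h1, c, hc, hx⟩
      refine ⟨(c, x 2), ⟨hc, h0, h1⟩, ?_⟩
      show up ((1 - x 2) • c) (x 2) = x
      rw [← hx]
      exact up_self x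
    · rintro ⟨⟨c, z⟩, ⟨hc, h0, h1⟩, rfl⟩
      exact ⟨h0, h1, c, hc, rfl⟩
  rw [h1]
  have hc : Continuous fun q : (ℝ × ℝ) × ℝ => (((1 - q.2) • q.1, q.2) : (ℝ × ℝ) × ℝ) := by fun_prop
  exact (h.cpt.prod isCompact_Icc).image (up_cont.comp hc)

theorem dco_cpt (h : PB C) : IsCompact (dco C) := by
  have h1 : dco C = (fun q : (ℝ × ℝ) × ℝ => up ((1 - |q.2|) • q.1) q.2) '' (C ×ˢ Icc (-1) 1) := by
    ext x
    constructor
    · rintro ⟨h0, c, hc, hx⟩
      refine ⟨(c, x 2), ⟨hc, abs_le.1 h0⟩, ?_⟩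
      show up ((1 - |x 2|) • c) (x 2) = x
      rw [← hx]
      exact up_self x
    · rintro ⟨⟨c, z⟩, ⟨hc, h0⟩, rfl⟩
      exact ⟨abs_le.2 h0, c, hc, rfl⟩
  rw [h1]
  have hc : Continuous fun q : (ℝ × ℝ) × ℝ => (((1 - |q.2|) • q.1, q.2) : (ℝ × ℝ) × ℝ) := by
    fun_prop
  exact (h.cpt.prod isCompact_Icc).image (up_cont.comp hc)

/-- a combination of two points of `C` with nonnegative weights -/
theorem comb (h : PB C) {c c' : ℝ × ℝ} (hc : c ∈ C) (hc' : c' ∈ C) {p q s : ℝ} (hp : 0 ≤ p)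
    (hq : 0 ≤ q) (hs : p + q ≤ s) : ∃ d ∈ C, p • c + q • c' = s • d := by
  rcases eq_or_lt_of_le (add_nonneg hp hq) with h0 | h0
  · have hp0 : p = 0 := by linarith
    have hq0 : q = 0 := by linarith
    exact ⟨0, zmem h, by rw [hp0, hq0, zero_smul, zero_smul, smul_zero, add_zero]⟩
  · have hs0 : 0 < s := lt_of_lt_of_le h0 hs
    have h1 := h.cvx hc hc' (a := p / (p + q)) (b := q / (p + q)) (by positivity) (by positivity)
      (by field_simp)
    have h2 := shrink h h1 (s := (p + q) / s) (by positivity) ((div_le_one hs0).2 hs)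
    refine ⟨_, h2, ?_⟩
    rw [smul_smul, smul_add, smul_smul, smul_smul]
    congr 2 <;> field_simp

theorem con_cvx (h : PB C) : Convex ℝ (con C) := by
  rintro x ⟨h0, h1, c, hc, hx⟩ y ⟨k0, k1, d, hd, hy⟩ a b ha hb hab
  obtain ⟨e, he, heq⟩ := comb h hc hd (p := a * (1 - x 2)) (q := b * (1 - y 2))
    (s := 1 - (a * x 2 + b * y 2)) (mul_nonneg ha (by linarith)) (mul_nonneg hb (by linarith))
    (by nlinarith)
  refine ⟨?_, ?_, e, he, ?_⟩
  · show 0 ≤ a * x 2 + b * y 2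
    positivity
  · show a * x 2 + b * y 2 ≤ 1
    nlinarith
  · show (a * x 0 + b * y 0, a * x 1 + b * y 1) = (1 - (a * x 2 + b * y 2)) • e
    rw [← heq, ← smul_smul, ← smul_smul, ← hx, ← hy]
    rfl

theorem dco_cvx (h : PB C) : Convex ℝ (dco C) := by
  rintro x ⟨h1, c, hc, hx⟩ y ⟨k1, d, hd, hy⟩ a b ha hb hab
  have habs : |a * x 2 + b * y 2| ≤ a * |x 2| + b * |y 2| := by
    refine (abs_add_le _ _).trans ?_
    rw [abs_mul, abs_mul, abs_of_nonneg ha, abs_of_nonneg hb]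
  obtain ⟨e, he, heq⟩ := comb h hc hd (p := a * (1 - |x 2|)) (q := b * (1 - |y 2|))
    (s := 1 - |a * x 2 + b * y 2|) (mul_nonneg ha (by linarith)) (mul_nonneg hb (by linarith))
    (by nlinarith)
  refine ⟨?_, e, he, ?_⟩
  · show |a * x 2 + b * y 2| ≤ 1
    nlinarith
  · show (a * x 0 + b * y 0, a * x 1 + b * y 1) = (1 - |a * x 2 + b * y 2|) • e
    rw [← heq, ← smul_smul, ← smul_smul, ← hx, ← hy]
    rfl

theorem con_int (h : PB C) : (interior (con C)).Nonempty := by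
  have hU : IsOpen {x : E3 | 0 < x 2 ∧ x 2 < 1 / 2 ∧ (2 : ℝ) • (x 0, x 1) ∈ interior C} := by
    refine (isOpen_lt continuous_const ht_cont).inter ((isOpen_lt ht_cont continuous_const).inter ?_)
    have hc : Continuous fun x : E3 => (2 : ℝ) • ((x 0, x 1) : ℝ × ℝ) := by fun_prop
    exact isOpen_interior.preimage hc
  refine ⟨up 0 (1 / 4), mem_interior.2 ⟨_, ?_, hU, ?_⟩⟩
  · rintro x ⟨h0, h1, h2⟩
    have hpos : 0 < 1 - x 2 := by linarith
    have h3 := shrink h (interior_subset h2) (s := 1 / (2 * (1 - x 2))) (by positivity)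
      ((div_le_one (by positivity)).2 (by linarith))
    refine ⟨h0.le, by linarith, _, h3, ?_⟩
    rw [smul_smul, smul_smul]
    have : (1 - x 2) * (1 / (2 * (1 - x 2))) * 2 = 1 := by field_simp
    rw [this, one_smul]
  · refine ⟨?_, ?_, ?_⟩
    · rw [up_two]; norm_num
    · rw [up_two]; norm_num
    · have : (2 : ℝ) • ((up 0 (1 / 4)) 0, (up 0 (1 / 4)) 1) = (0 : ℝ × ℝ) := by
        rw [up_zero, UL3.up_one]
        simp
      rw [this]
      exact h.zero_mem

theorem al_con {t : ℝ} (ht : t ∈ Icc (0 : ℝ) 1) : al (con C) t = (1 - t) ^ 2 * ar C := by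
  have h1 : sec (con C) t = (1 - t) • C := by
    ext p
    rw [mem_sec]
    constructor
    · rintro ⟨-, -, c, hc, hx⟩
      exact ⟨c, hc, hx.symm⟩
    · rintro ⟨c, hc, hx⟩
      exact ⟨ht.1, ht.2, c, hc, hx.symm⟩
  unfold al ar
  rw [h1, measureReal_def, Measure.addHaar_smul, ENNReal.toReal_mul, measureReal_def]
  have h2 : Module.finrank ℝ (ℝ × ℝ) = 2 := by simp
  rw [h2, ENNReal.toReal_ofReal (abs_nonneg _), abs_of_nonneg (by positivity)]

theorem al_con' {t : ℝ} (ht : t ∉ Icc (0 : ℝ) 1) : al (con C) t = 0 := by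
  have h1 : sec (con C) t = ∅ := by
    ext p
    rw [mem_sec]
    constructor
    · rintro ⟨h1, h2, -⟩
      exact absurd ⟨h1, h2⟩ ht
    · intro h
      exact absurd h (notMem_empty p)
  unfold al
  rw [h1, measureReal_empty]

theorem vol_con (h : PB C) : V (con C) = ar C / 3 := by
  have h1 := (H34.main (con_cpt h) (g := fun _ => 1) continuous_const).2
  have h2 : ∫ _ in con C, (1 : ℝ) = V (con C) := by
    rw [setIntegral_const, smul_eq_mul, mul_one]
    rfl
  rw [← h2, h1]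
  have h3 : (fun t => (1 : ℝ) * al (con C) t)
      = (Icc (0 : ℝ) 1).indicator fun t => (1 - t) ^ 2 * ar C := by
    funext t
    rw [one_mul]
    by_cases ht : t ∈ Icc (0 : ℝ) 1
    · rw [indicator_of_mem ht, al_con ht]
    · rw [indicator_of_notMem ht, al_con' ht]
  rw [h3, integral_indicator measurableSet_Icc, integral_Icc_eq_integral_Ioc,
    ← intervalIntegral.integral_of_le zero_le_one, intervalIntegral.integral_mul_const]
  have h4 : ∫ t in (0 : ℝ)..1, (1 - t) ^ 2 = 1 / 3 := by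
    have := intervalIntegral.integral_comp_sub_left (fun t : ℝ => t ^ 2) (1 : ℝ) (a := 0) (b := 1)
    rw [this]
    norm_num [integral_pow]
  rw [h4]
  ring

theorem zero_notMem : (0 : E3) ∉ interior (con C) := by
  intro h
  have hc : Continuous fun t : ℝ => up 0 t := up_cont.comp (Continuous.prodMk continuous_const continuous_id)
  have h0 : up 0 0 = (0 : E3) := by
    ext i
    fin_cases i <;> rfl
  have h1 : ∀ᶠ t in 𝓝 (0 : ℝ), up 0 t ∈ con C := by
    have h2 : interior (con C) ∈ 𝓝 (up 0 0) := by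
      rw [h0]
      exact isOpen_interior.mem_nhds h
    have h3 : ∀ᶠ t in 𝓝 (0 : ℝ), up 0 t ∈ interior (con C) := hc.tendsto 0 h2
    exact h3.mono fun t ht => interior_subset ht
  obtain ⟨δ, hδ, h2⟩ := Metric.eventually_nhds_iff.1 h1
  have h3 := h2 (y := -(δ / 2)) (by
    rw [Real.dist_eq, sub_zero, abs_neg, abs_of_pos (by positivity)]
    linarith)
  have h4 : 0 ≤ (up 0 (-(δ / 2))) 2 := h3.1
  rw [up_two] at h4
  linarith

end

/-- **DCB**. -/
theorem dcb : DcbStmt := by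
  intro C h
  refine ⟨⟨dco_cpt h, dco_cvx h, ?_, (con_int h).mono (interior_mono con_sub)⟩,
    ⟨con_cpt h, con_cvx h, con_int h⟩, con_sub, vol_con h, zero_notMem⟩
  rintro x ⟨h0, c, hc, hx⟩
  refine ⟨?_, -c, h.sym c hc, ?_⟩
  · show |-(x 2)| ≤ 1
    rw [abs_neg]
    exact h0
  · show (-(x 0), -(x 1)) = (1 - |-(x 2)|) • -c
    rw [abs_neg, smul_neg, ← hx]
    rfl

end Pool.Agent.UL5.H7
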